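import Pool.Agent.H17.SD.Targets

/-!
# sfg_modules, row NN1: one step of Noether normalisation by linear forms (helper36)
-/

set_option autoImplicit false

open MvPolynomial SC Pool.Agent.H27.LV
open Pool.Agent.H92.SF Pool.Agent.H3.SF Pool.Agent.H17.SD

namespace Pool.Agent.H36.SFG

/-- a polynomial of degree at most `d` with given coefficient of degree `d` -/
def TD {W : Type} [CommRing W] (d : ℕ) (P : Polynomial W) (v : W) : Prop :=
  P.natDegree ≤ d ∧ P.coeff d = v

lemma TD.mul {W : Type} [CommRing W] {a b : ℕ} {P Q : Polynomial W} {v w : W}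
    (hP : TD a P v) (hQ : TD b Q w) : TD (a + b) (P * Q) (v * w) := by
  refine ⟨Polynomial.natDegree_mul_le.trans (Nat.add_le_add hP.1 hQ.1), ?_⟩
  rw [Polynomial.coeff_mul_add_eq_of_natDegree_le hP.1 hQ.1, hP.2, hQ.2]

lemma TD.pow {W : Type} [CommRing W] {P : Polynomial W} {v : W}
    (hP : TD 1 P v) (n : ℕ) : TD n (P ^ n) (v ^ n) := by
  induction n with
  | zero => exact ⟨by simp, by simp⟩
  | succ n ih =>
    rw [pow_succ, pow_succ]
    exact ih.mul hP

lemma TD.prod {W ι : Type} [CommRing W] (s : Finset ι) (L : ι → Polynomial W) (v : ι → W)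
    (hL : ∀ i, TD 1 (L i) (v i)) (a : ι → ℕ) :
    TD (∑ i ∈ s, a i) (∏ i ∈ s, L i ^ a i) (∏ i ∈ s, v i ^ a i) := by
  classical
  induction s using Finset.induction_on with
  | empty => exact ⟨by simp, by simp⟩
  | insert i s hi ih =>
    rw [Finset.sum_insert hi, Finset.prod_insert hi, Finset.prod_insert hi]
    exact ((hL i).pow (a i)).mul ih

lemma TD.sum {W ι : Type} [CommRing W] (s : Finset ι) (P : ι → Polynomial W) (v : ι → W) (d : ℕ)
    (h : ∀ i ∈ s, TD d (P i) (v i)) : TD d (∑ i ∈ s, P i) (∑ i ∈ s, v i) := by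
  refine ⟨Polynomial.natDegree_sum_le_of_forall_le s P fun i hi => (h i hi).1, ?_⟩
  rw [Polynomial.finsetSum_coeff]
  exact Finset.sum_congr rfl fun i hi => (h i hi).2

lemma TD.C_mul {W : Type} [CommRing W] {d : ℕ} {P : Polynomial W} {v : W} (hP : TD d P v)
    (c : W) : TD d (Polynomial.C c * P) (c * v) := by
  refine ⟨(Polynomial.natDegree_C_mul_le c P).trans hP.1, ?_⟩
  rw [Polynomial.coeff_C_mul, hP.2]

/-- a point where the form does not vanish, with last coordinate one -/
lemma nn_pt {k : Type} [Field k] [Infinite k] {n d : ℕ} (f : MvPolynomial (Fin (n + 1)) k)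
    (hf : f.IsHomogeneous d) (hf0 : f ≠ 0) :
    ∃ c : Fin n → k, eval (Fin.snoc c 1 : Fin (n + 1) → k) f ≠ 0 := by
  by_contra hcon
  push Not at hcon
  apply hf0
  have h1 : f * X (Fin.last n) = 0 := by
    apply MvPolynomial.funext
    intro x
    rw [map_mul, eval_X, map_zero]
    by_cases h0 : x (Fin.last n) = 0
    · rw [h0, mul_zero]
    · have h2 : x = x (Fin.last n) • (Fin.snoc (fun i : Fin n => x i.castSucc / x (Fin.last n)) 1 :
          Fin (n + 1) → k) := by
        funext i
        rw [Pi.smul_apply, smul_eq_mul]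
        refine Fin.lastCases ?_ (fun i => ?_) i
        · rw [Fin.snoc_last, mul_one]
        · rw [Fin.snoc_castSucc]
          field_simp
      have h3 := hcon fun i : Fin n => x i.castSucc / x (Fin.last n)
      have h4 : eval x f = x (Fin.last n) ^ d * eval (Fin.snoc
          (fun i : Fin n => x i.castSucc / x (Fin.last n)) 1 : Fin (n + 1) → k) f := by
        conv_lhs => rw [h2]
        rw [eval_eq', eval_eq', Finset.mul_sum]
        refine Finset.sum_congr rfl fun a ha => ?_
        have h5 : ∑ i, a i = d := by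
          rw [hf.degree_eq_sum_deg_support ha]
          exact (Finset.sum_subset (Finset.subset_univ _)
            (fun i _ hi => Finsupp.notMem_support_iff.1 hi)).symm
        simp only [Pi.smul_apply, smul_eq_mul, mul_pow]
        rw [Finset.prod_mul_distrib, Finset.prod_pow_eq_pow_sum, h5]
        ring
      rw [h4, h3]
      ring
  rcases mul_eq_zero.1 h1 with h2 | h2
  · exact h2
  · exact absurd h2 (X_ne_zero _)

theorem pf_NN1 (h1 : T_ITA) : T_NN1 := by
  intro k F _ _ _ _ n X f d hf hf0 hX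
  classical
  obtain ⟨c, hc⟩ := nn_pt f hf hf0
  refine ⟨c, ?_⟩
  obtain ⟨L, hL⟩ : ∃ L : Fin (n + 1) → Polynomial (MvPolynomial (Fin n) k),
      L = Fin.snoc (fun i : Fin n => Polynomial.C (MvPolynomial.X i) +
        Polynomial.C (C (c i)) * Polynomial.X) Polynomial.X := ⟨_, rfl⟩
  obtain ⟨v, hv⟩ : ∃ v : Fin (n + 1) → MvPolynomial (Fin n) k,
      v = fun i => C ((Fin.snoc c 1 : Fin (n + 1) → k) i) := ⟨_, rfl⟩
  have hLv : ∀ i, TD 1 (L i) (v i) := by
    intro i
    rw [hL, hv]
    refine Fin.lastCases ?_ (fun i => ?_) i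
    · simp only [Fin.snoc_last, map_one]
      exact ⟨Polynomial.natDegree_X_le, Polynomial.coeff_X_one⟩
    · simp only [Fin.snoc_castSucc]
      refine ⟨?_, ?_⟩
      · refine (Polynomial.natDegree_add_le _ _).trans (max_le ?_ ?_)
        · rw [Polynomial.natDegree_C]
          exact Nat.zero_le _
        · exact (Polynomial.natDegree_C_mul_le _ _).trans Polynomial.natDegree_X_le
      · rw [Polynomial.coeff_add, Polynomial.coeff_C_succ, zero_add, Polynomial.coeff_C_mul,
          Polynomial.coeff_X_one, mul_one]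
  obtain ⟨P, hP⟩ : ∃ P : Polynomial (MvPolynomial (Fin n) k), P = aeval L f := ⟨_, rfl⟩
  have hPd : TD d P (C (eval (Fin.snoc c 1 : Fin (n + 1) → k) f)) := by
    have e1 : P = ∑ a ∈ f.support, Polynomial.C (C (f.coeff a)) * ∏ i, L i ^ a i := by
      rw [hP, aeval_def, eval₂_eq']
      rfl
    have e2 : (C (eval (Fin.snoc c 1 : Fin (n + 1) → k) f) : MvPolynomial (Fin n) k) =
        ∑ a ∈ f.support, C (f.coeff a) * ∏ i, v i ^ a i := by
      rw [eval_eq', map_sum, hv]
      refine Finset.sum_congr rfl fun a _ => ?_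
      rw [map_mul, map_prod]
      congr 1
      refine Finset.prod_congr rfl fun i _ => ?_
      rw [map_pow]
    rw [e1, e2]
    refine TD.sum _ _ _ d fun a ha => ?_
    have h5 : ∑ i, a i = d := by
      rw [hf.degree_eq_sum_deg_support ha]
      exact (Finset.sum_subset (Finset.subset_univ _)
        (fun i _ hi => Finsupp.notMem_support_iff.1 hi)).symm
    have h6 := TD.prod Finset.univ L v hLv a
    rw [h5] at h6
    exact h6.C_mul _
  obtain ⟨w, hw⟩ : ∃ w : k, w = eval (Fin.snoc c 1 : Fin (n + 1) → k) f := ⟨_, rfl⟩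
  rw [← hw] at hPd hc
  have hQ := hPd.C_mul (C w⁻¹)
  rw [← map_mul, inv_mul_cancel₀ hc, map_one] at hQ
  refine ⟨Polynomial.C (C w⁻¹) * P, Polynomial.monic_of_natDegree_le_of_coeff_eq_one d hQ.1 hQ.2,
    ?_⟩
  rw [Polynomial.eval₂_mul]
  obtain ⟨φ, hφ⟩ : ∃ φ : MvPolynomial (Fin n) k →ₐ[k] F,
      φ = aeval fun i : Fin n => X i.castSucc - c i • X (Fin.last n) := ⟨_, rfl⟩
  have e3 : Polynomial.eval₂ (φ : MvPolynomial (Fin n) k →+* F) (X (Fin.last n)) P = 0 := by
    have e4 : (Polynomial.eval₂RingHom (φ : MvPolynomial (Fin n) k →+* F) (X (Fin.last n))).comp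
        ((aeval L : MvPolynomial (Fin (n + 1)) k →ₐ[k] Polynomial (MvPolynomial (Fin n) k)) :
          MvPolynomial (Fin (n + 1)) k →+* Polynomial (MvPolynomial (Fin n) k)) =
        ((aeval X : MvPolynomial (Fin (n + 1)) k →ₐ[k] F) :
          MvPolynomial (Fin (n + 1)) k →+* F) := by
      apply MvPolynomial.ringHom_ext
      · intro a
        rw [RingHom.comp_apply, RingHom.coe_coe, RingHom.coe_coe, algHom_C, algHom_C]
        have e5 : algebraMap k (Polynomial (MvPolynomial (Fin n) k)) a = Polynomial.C (C a) := rfl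
        rw [e5, Polynomial.coe_eval₂RingHom, Polynomial.eval₂_C, RingHom.coe_coe, algHom_C]
      · intro i
        rw [RingHom.comp_apply, RingHom.coe_coe, RingHom.coe_coe, aeval_X, aeval_X,
          Polynomial.coe_eval₂RingHom, hL]
        refine Fin.lastCases ?_ (fun i => ?_) i
        · rw [Fin.snoc_last, Polynomial.eval₂_X]
        · rw [Fin.snoc_castSucc, Polynomial.eval₂_add, Polynomial.eval₂_mul, Polynomial.eval₂_C,
            Polynomial.eval₂_C, Polynomial.eval₂_X, RingHom.coe_coe, algHom_C, hφ, aeval_X,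
            Algebra.smul_def]
          ring
    have e6 := congrArg (fun g => g f) e4
    simp only [RingHom.comp_apply, RingHom.coe_coe, Polynomial.coe_eval₂RingHom] at e6
    rw [hP, e6, hX]
  rw [← hφ, e3, mul_zero]

end Pool.Agent.H36.SFG
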