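import Pool.Agent.H17.SD.Targets

/-!
# sfg_modules, row EUL: the Euler derivation (helper36)
-/

set_option autoImplicit false

open MvPolynomial SC Pool.Agent.H27.LV
open Pool.Agent.H92.SF Pool.Agent.H3.SF Pool.Agent.H17.SD

namespace Pool.Agent.H36.SFG

variable {k F σ : Type} [Field k] [Field F] [Algebra k F] [Fintype σ]

/-- the directional derivative along `y` at the point `X` -/
noncomputable def dl (X y : σ → F) (f : MvPolynomial σ k) : F :=
  ∑ s, aeval X (pderiv s f) * y s

lemma dl_add (X y : σ → F) (f g : MvPolynomial σ k) :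
    dl X y (f + g) = dl X y f + dl X y g := by
  rw [dl, dl, dl, ← Finset.sum_add_distrib]
  refine Finset.sum_congr rfl fun s _ => ?_
  rw [map_add, map_add, add_mul]

lemma dl_mul (X y : σ → F) (f g : MvPolynomial σ k) :
    dl X y (f * g) = aeval X f * dl X y g + aeval X g * dl X y f := by
  rw [dl, dl, dl, Finset.mul_sum, Finset.mul_sum, ← Finset.sum_add_distrib]
  refine Finset.sum_congr rfl fun s _ => ?_
  rw [pderiv_mul, map_add, map_mul, map_mul]
  ring

lemma dl_C (X y : σ → F) (a : k) : dl X y (C a) = 0 := by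
  rw [dl]
  refine Finset.sum_eq_zero fun s _ => ?_
  rw [pderiv_C, map_zero, zero_mul]

lemma dl_X (X y : σ → F) (i : σ) : dl (k := k) X y (MvPolynomial.X i) = y i := by
  classical
  rw [dl, Finset.sum_eq_single i]
  · rw [pderiv_X_self, map_one, one_mul]
  · intro s _ hs
    rw [pderiv_X_of_ne hs.symm, map_zero, zero_mul]
  · intro h
    exact absurd (Finset.mem_univ _) h

/-- the derivation is given by the directional derivative -/
lemma dl_E (X : σ → F) (E : Derivation k F F) (f : MvPolynomial σ k) :
    E (aeval X f) = dl X (fun s => E (X s)) f := by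
  induction f using MvPolynomial.induction_on with
  | C a => rw [dl_C, algHom_C, Derivation.map_algebraMap]
  | add p q hp hq => rw [map_add, map_add, dl_add, hp, hq]
  | mul_X p i hp =>
    rw [map_mul, Derivation.leibniz, dl_mul, hp, aeval_X, dl_X, smul_eq_mul, smul_eq_mul]

/-- the Euler identity for relations -/
lemma dl_eu (X : σ → F) (hX : HRel k X) (f : MvPolynomial σ k) (hf : aeval X f = 0) :
    dl X X f = 0 := by
  have h1 : dl X X f = ∑ i ∈ Finset.range (f.totalDegree + 1),
      dl X X (homogeneousComponent i f) := by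
    conv_lhs => rw [← sum_homogeneousComponent f]
    generalize Finset.range (f.totalDegree + 1) = S
    classical
    induction S using Finset.induction_on with
    | empty =>
      rw [Finset.sum_empty, Finset.sum_empty, ← C_0, dl_C]
    | insert i S hi ih => rw [Finset.sum_insert hi, Finset.sum_insert hi, dl_add, ih]
  rw [h1]
  refine Finset.sum_eq_zero fun i _ => ?_
  have h2 := (homogeneousComponent_isHomogeneous i f).sum_X_mul_pderiv
  have h3 := congrArg (aeval X) h2
  rw [map_sum, map_nsmul, hX f hf i, smul_zero] at h3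
  rw [dl, ← h3]
  refine Finset.sum_congr rfl fun s _ => ?_
  rw [map_mul, aeval_X, mul_comm]

theorem pf_EUL (h1 : T_ITA) (h2 : T_MPC) : T_EUL := by
  intro k F σ _ _ _ _ _ X hX u E hu hul hint hE s
  classical
  -- linear forms
  have hc : ∀ l, ∃ c : σ → k, u l = ∑ j, c j • X j := by
    intro l
    obtain ⟨c, hc⟩ := (Submodule.mem_span_range_iff_exists_fun k).1 (hul l)
    exact ⟨c, hc.symm⟩
  choose c hc using hc
  obtain ⟨U, hU⟩ : ∃ U : Fin 3 → MvPolynomial σ k, U = fun l => ∑ j, C (c l j) *
      MvPolynomial.X j := ⟨_, rfl⟩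
  have hUe : ∀ l, aeval X (U l) = u l := by
    intro l
    rw [hU, hc l, map_sum]
    refine Finset.sum_congr rfl fun j _ => ?_
    rw [map_mul, algHom_C, aeval_X, Algebra.smul_def]
  obtain ⟨y, hy⟩ : ∃ y : σ → F, y = fun s => E (X s) - X s := ⟨_, rfl⟩
  -- relations are killed by the directional derivative along `y`
  have hrel : ∀ f : MvPolynomial σ k, aeval X f = 0 → dl X y f = 0 := by
    intro f hf
    have e1 : dl X y f = dl X (fun s => E (X s)) f - dl X X f := by
      rw [dl, dl, dl, ← Finset.sum_sub_distrib, hy]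
      refine Finset.sum_congr rfl fun s _ => ?_
      ring
    rw [e1, dl_eu X hX f hf, ← dl_E, hf, map_zero, sub_zero]
  have hUd : ∀ l, dl X y (U l) = 0 := by
    intro l
    have e1 : dl X y (U l) = dl X (fun s => E (X s)) (U l) - dl X X (U l) := by
      rw [dl, dl, dl, ← Finset.sum_sub_distrib, hy]
      refine Finset.sum_congr rfl fun s _ => ?_
      ring
    have e2 : dl X X (U l) = u l := by
      have e3 : (U l).IsHomogeneous 1 := by
        rw [hU]
        refine IsHomogeneous.sum _ _ _ fun j _ => ?_
        exact isHomogeneous_C_mul_X _ _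
      have e4 := congrArg (aeval X) e3.sum_X_mul_pderiv
      rw [one_smul, hUe, map_sum] at e4
      rw [dl, ← e4]
      refine Finset.sum_congr rfl fun s _ => ?_
      rw [map_mul, aeval_X, mul_comm]
    rw [e1, ← dl_E, hUe, hE, e2, sub_self]
  have hPd : ∀ P : MvPolynomial (Fin 3) k, dl X y (aeval U P) = 0 := by
    intro P
    induction P using MvPolynomial.induction_on with
    | C a =>
      rw [algHom_C]
      exact dl_C X y a
    | add p q hp hq => rw [map_add, dl_add, hp, hq, add_zero]
    | mul_X p i hp => rw [map_mul, dl_mul, hp, aeval_X, hUd, mul_zero, mul_zero, add_zero]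
  have hPe : ∀ P : MvPolynomial (Fin 3) k, aeval X (aeval U P) = aeval u P := by
    intro P
    have e1 : (aeval X : MvPolynomial σ k →ₐ[k] F).comp (aeval U) = aeval u := by
      apply MvPolynomial.algHom_ext
      intro i
      rw [AlgHom.comp_apply, aeval_X, aeval_X, hUe]
    rw [← e1, AlgHom.comp_apply]
  have hXd : ∀ i : ℕ, dl X y ((MvPolynomial.X s : MvPolynomial σ k) ^ i) =
      (i : F) * X s ^ (i - 1) * y s := by
    intro i
    induction i with
    | zero =>
      rw [pow_zero, ← C_1, dl_C]
      simp
    | succ i ih =>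
      rw [pow_succ, dl_mul, ih, dl_X, map_pow, aeval_X, Nat.succ_sub_one]
      cases i with
      | zero => simp
      | succ i =>
        rw [Nat.succ_sub_one]
        push_cast
        ring
  -- the minimal polynomial
  have hint' : IsIntegral (kF k u) (X s) := by
    obtain ⟨q, hq, hq0⟩ := hint s
    obtain ⟨φ, hφ⟩ : ∃ φ : MvPolynomial (Fin 3) k →ₐ[k] kF k u, φ = aeval fun i =>
      (⟨u i, IntermediateField.subset_adjoin k _ ⟨i, rfl⟩⟩ : kF k u) := ⟨_, rfl⟩
    have e1 : (algebraMap (kF k u) F).comp (φ : MvPolynomial (Fin 3) k →+* kF k u) =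
        ((aeval u : MvPolynomial (Fin 3) k →ₐ[k] F) : MvPolynomial (Fin 3) k →+* F) := by
      apply MvPolynomial.ringHom_ext
      · intro a
        rw [RingHom.comp_apply, RingHom.coe_coe, RingHom.coe_coe, algHom_C, algHom_C]
        rfl
      · intro i
        rw [RingHom.comp_apply, RingHom.coe_coe, RingHom.coe_coe, hφ, aeval_X, aeval_X]
        rfl
    refine ⟨q.map (φ : MvPolynomial (Fin 3) k →+* kF k u), hq.map _, ?_⟩
    rw [Polynomial.eval₂_map, e1]
    exact hq0
  obtain ⟨p, hp⟩ : ∃ p : Polynomial (kF k u), p = minpoly (kF k u) (X s) := ⟨_, rfl⟩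
  have hcoef : ∀ i, ∃ P : MvPolynomial (Fin 3) k, (p.coeff i : F) = aeval u P := by
    rw [hp]
    exact h2 k F (Fin 3) u hu (X s) (hint s)
  choose P hP using hcoef
  have hp0 : Polynomial.aeval (X s) p = 0 := by
    rw [hp]
    exact minpoly.aeval _ _
  have hpsep : Polynomial.aeval (X s) (Polynomial.derivative p) ≠ 0 := by
    have : CharZero (kF k u) := charZero_of_injective_algebraMap (algebraMap k (kF k u)).injective
    have hirr : Irreducible p := by
      rw [hp]
      exact minpoly.irreducible hint'
    exact hirr.separable.aeval_derivative_ne_zero hp0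
  -- the polynomial relation
  obtain ⟨N, hN⟩ : ∃ N : ℕ, N = p.natDegree + 1 := ⟨_, rfl⟩
  obtain ⟨f, hf⟩ : ∃ f : MvPolynomial σ k, f = ∑ i ∈ Finset.range N,
    aeval U (P i) * (MvPolynomial.X s) ^ i := ⟨_, rfl⟩
  have hf0 : aeval X f = 0 := by
    rw [hf, map_sum]
    rw [Polynomial.aeval_eq_sum_range, ← hN] at hp0
    rw [← hp0]
    refine Finset.sum_congr rfl fun i _ => ?_
    rw [map_mul, hPe, map_pow, aeval_X, ← hP i, Algebra.smul_def]
    rfl
  have hfd : dl X y f = Polynomial.aeval (X s) (Polynomial.derivative p) * y s := by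
    have e1 : dl X y f = ∑ i ∈ Finset.range N,
        dl X y (aeval U (P i) * (MvPolynomial.X s : MvPolynomial σ k) ^ i) := by
      rw [hf]
      generalize Finset.range N = S
      induction S using Finset.induction_on with
      | empty =>
        rw [Finset.sum_empty, Finset.sum_empty, ← C_0, dl_C]
      | insert i S hi ih => rw [Finset.sum_insert hi, Finset.sum_insert hi, dl_add, ih]
    have e2 : Polynomial.aeval (X s) (Polynomial.derivative p) =
        ∑ i ∈ Finset.range N, (p.coeff i : F) * ((i : F) * X s ^ (i - 1)) := by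
      conv_lhs => rw [Polynomial.as_sum_range p, ← hN]
      rw [map_sum, map_sum]
      refine Finset.sum_congr rfl fun i _ => ?_
      rw [Polynomial.derivative_monomial, Polynomial.aeval_monomial, map_mul, map_natCast,
        mul_assoc]
      rfl
    rw [e1, e2, Finset.sum_mul]
    refine Finset.sum_congr rfl fun i _ => ?_
    rw [dl_mul, hPd, hXd, hPe, hP i]
    ring
  have h3 := hrel f hf0
  rw [hfd] at h3
  have h4 : y s = 0 := (mul_eq_zero.1 h3).resolve_left hpsep
  rw [hy] at h4
  exact sub_eq_zero.1 h4

end Pool.Agent.H36.SFG
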